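import Pool.Agent.Q100.Rec.Stmt

/-!
# No continuous isometric recoding of pseudonorm codes by norm codes (MP_63dc35, Q1: the answer is
no).

There is no continuous map `Φ : P_∞ → B` with `X_{Φ(μ)}` isometric to `X_μ` for all `μ`; there is
not even a continuous `Φ : P_∞ → B` such that `X_{Φ(μ)}` embeds isometrically into `X_μ` for all
`μ`.
-/

namespace Pool.Agent.Results.MP_63dc35_an.NoContinuousRecoding

open Pool.Agent.Q100.Rec

theorem result :
    (¬ ∃ Φ : CodesInf → NormCodes, Continuous Φ ∧ ∀ μ : CodesInf, Isometric (Φ μ).1 μ.1) ∧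
    (¬ ∃ Φ : CodesInf → NormCodes, Continuous Φ ∧ ∀ μ : CodesInf, Embeds (Φ μ).1 μ.1) := by
  refine ⟨?_, main'⟩
  rintro ⟨Φ, hΦ, hJ⟩
  exact main' ⟨Φ, hΦ, fun μ => (hJ μ).map LinearIsometryEquiv.toLinearIsometry⟩

end Pool.Agent.Results.MP_63dc35_an.NoContinuousRecoding
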